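import Mathlib
import Pool.Agent.Lib.MP_4ffbf9_nt.MA.Final
import Pool.Agent.Lib.MP_4ffbf9_nt.SP.Baker

/-!
The gap between two products whose scaled factors lie in one window.
-/

set_option autoImplicit false

namespace Pool.Agent.Lib.MP_4ffbf9_nt.JW

open Finset

theorem rat_cheap (ι : Type) [Fintype ι] [DecidableEq ι] : ∃ c : ℝ, 0 < c ∧
    ∀ (r s : ι → ℕ) (a : ι → ℝ) (b : ι → ℤ) (o : ι) (N : Finset ι) (B : ℝ),
      (∀ i, 0 < r i ∧ 0 < s i ∧ 1 ≤ a i ∧ (r i : ℝ) ≤ Real.exp (a i) ∧ (s i : ℝ) ≤ Real.exp (a i)) →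
      3 ≤ B → (∀ i, |(b i : ℝ)| ≤ B) → o ∉ N →
      (∀ i ∈ N, a i ≤ a o ∧ |Real.log ((r i : ℝ) / s i)| ≤ B * Real.exp (-(a i / 2))) →
      ∑ i, (b i : ℝ) * Real.log ((r i : ℝ) / s i) ≠ 0 →
      Real.exp (-(c * (∏ i ∈ Nᶜ, a i) * Real.log B ^ (2 * N.card + 2))) ≤
        |∑ i, (b i : ℝ) * Real.log ((r i : ℝ) / s i)| := by
  obtain ⟨d, ρ, hρ, hN⟩ := MA.num (Fintype.card ι) 1
  obtain ⟨c, hc, h⟩ := MA.main1 d (Fintype.card ι)
  refine ⟨c * (ρ * 2) ^ Fintype.card ι, by positivity, fun r s a b o N B ha hB hb ho hn hΛ => ?_⟩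
  obtain ⟨F, dn, hF, h1⟩ := hN ι (fun i => ((Real.log ((r i : ℝ) / s i) : ℝ) : ℂ)) a le_rfl
    fun i => SP.bk_rat_data (ha _).1 (ha _).2.1 (ha _).2.2.1 (ha _).2.2.2.1 (ha _).2.2.2.2
  have hs : ∑ i, ((b i : ℤ) : ℂ) * ((Real.log ((r i : ℝ) / s i) : ℝ) : ℂ) =
      ((∑ i, (b i : ℝ) * Real.log ((r i : ℝ) / s i) : ℝ) : ℂ) := by
    simp only [Complex.ofReal_sum, Complex.ofReal_mul, Complex.ofReal_intCast]
  have key := h F ι dn _ (fun i => ρ * a i) (fun _ => ρ * 2) b o N B hF le_rfl h1 ho hB hb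
    (fun i hi => ⟨mul_le_mul_of_nonneg_left (hn i hi).1 (by linarith), by linarith, by
      rw [mul_div_mul_left _ _ (by linarith), Complex.norm_real]
      exact (hn i hi).2⟩) (by rw [hs, Complex.ofReal_ne_zero]; exact hΛ)
  rw [hs, Complex.norm_real] at key
  refine le_trans (Real.exp_le_exp.2 (neg_le_neg ?_)) key
  refine mul_le_mul_of_nonneg_right ?_ (pow_nonneg (Real.log_nonneg (by linarith)) _)
  rw [prod_mul_distrib, prod_const, prod_const, ← card_compl_add_card N, pow_add, mul_assoc c]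
  have : 0 ≤ ∏ i ∈ Nᶜ, a i := prod_nonneg fun i _ => by linarith [(ha i).2.2.1]
  rw [mul_right_comm]
  gcongr
  linarith

theorem log_prod_pow {R : ℕ} {x : Fin R → ℕ} (p : Fin R → ℕ) (hx : ∀ i, 0 < x i) :
    Real.log ((∏ i, x i ^ p i : ℕ) : ℝ) = ∑ i, (p i : ℝ) * Real.log (x i) := by
  have x' : ∀ i, (0 : ℝ) < x i := fun i => by exact_mod_cast hx i
  push_cast
  rw [Real.log_prod fun i _ => (pow_pos (x' i) _).ne']
  simp only [Real.log_pow]

theorem win_half {u h M : ℝ} (hh : 0 < h) (hM : 4 * M ≤ h) (hu : (u - h) ^ 2 ≤ M * h) :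
    h ≤ 2 * u ∧ u ≤ 2 * h := by
  have : |u - h| ≤ h / 2 := abs_le_of_sq_le_sq' (by nlinarith) (by positivity) |> abs_le.2
  constructor <;> linarith [abs_le.1 this]

theorem win_log {u h M B : ℝ} (hh : 0 < h) (hM : 4 * M ≤ h) (hu : (u - h) ^ 2 ≤ M * h)
    (hB : 3 ≤ B) (hMB : 8 * M ≤ B) :
    |Real.log (u / h)| ≤ B * Real.exp (-((1 + Real.log (2 * h)) / 2)) := by
  obtain ⟨h1, h2⟩ := win_half hh hM hu
  have hu0 : 0 < u := by linarith
  have h3 : |Real.log (u / h)| ≤ 2 * |u - h| / h := by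
    rw [abs_le]
    constructor
    · have h4 := Real.log_le_sub_one_of_pos (div_pos hh hu0)
      rw [← inv_div, Real.log_inv] at h4
      have h5 : (u / h)⁻¹ - 1 ≤ 2 * |u - h| / h := by
        rw [inv_div, div_sub_one hu0.ne', div_le_div_iff₀ hu0 hh]
        nlinarith [neg_abs_le (u - h), abs_nonneg (u - h)]
      linarith
    · refine (Real.log_le_sub_one_of_pos (div_pos hu0 hh)).trans ?_
      rw [div_sub_one hh.ne']
      gcongr
      linarith [le_abs_self (u - h), abs_nonneg (u - h)]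
  refine h3.trans (le_of_pow_le_pow_left₀ two_ne_zero (by positivity) ?_)
  have h4 : Real.exp (-((1 + Real.log (2 * h)) / 2)) ^ 2 = (Real.exp 1 * (2 * h))⁻¹ := by
    rw [← Real.exp_nat_mul, show ((2 : ℕ) : ℝ) * -((1 + Real.log (2 * h)) / 2) =
      -(1 + Real.log (2 * h)) by push_cast; ring, Real.exp_neg, Real.exp_add,
      Real.exp_log (by positivity)]
  rw [mul_pow, h4, div_pow, mul_pow, sq_abs, ← div_eq_mul_inv,
    div_le_div_iff₀ (by positivity) (by positivity)]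
  have h5 : Real.exp 1 * (2 * h) ≤ 3 * (2 * h) := by gcongr; exact Real.exp_one_lt_three.le
  have h6 : 0 ≤ M * h := (sq_nonneg _).trans hu
  calc 2 ^ 2 * (u - h) ^ 2 * (Real.exp 1 * (2 * h)) ≤ 2 ^ 2 * (M * h) * (3 * (2 * h)) := by gcongr
    _ = 3 * (8 * M) * h ^ 2 := by ring
    _ ≤ B * B * h ^ 2 := by gcongr; nlinarith
    _ = _ := by ring

theorem baker_gap (A C c c' R : ℕ) (hA : 0 < A) (hC : 0 < C) (hc : 0 < c) (hc' : 0 < c') :
    ∃ κ : ℝ, 0 < κ ∧ ∀ (h : ℕ) (M B : ℝ) (v a w m : Fin R → ℕ), 0 < h → 4 * M ≤ h → 3 ≤ B →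
      8 * M ≤ B → ((∑ i, a i : ℕ) : ℝ) ≤ B → ((∑ i, m i : ℕ) : ℝ) ≤ B →
      (∀ i, ((c * v i : ℕ) - h : ℝ) ^ 2 ≤ M * h) → (∀ i, ((c' * w i : ℕ) - h : ℝ) ^ 2 ≤ M * h) →
      A * ∏ i, v i ^ a i < C * ∏ i, w i ^ m i →
      Real.exp (-(κ * (1 + Real.log (2 * h)) * Real.log B ^ (4 * R + 2))) ≤
        Real.log ((C * ∏ i, w i ^ m i : ℕ) : ℝ) - Real.log ((A * ∏ i, v i ^ a i : ℕ) : ℝ) := by
  obtain ⟨κ, hκ, H⟩ := rat_cheap (Fin 4 ⊕ (Fin R ⊕ Fin R))
  obtain ⟨σ, hσ⟩ : ∃ σ : ℝ, σ = 1 + A + C + c + c' := ⟨_, rfl⟩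
  have A0 : (0 : ℝ) < A := by exact_mod_cast hA
  have C0 : (0 : ℝ) < C := by exact_mod_cast hC
  have c0 : (0 : ℝ) < c := by exact_mod_cast hc
  have c0' : (0 : ℝ) < c' := by exact_mod_cast hc'
  have hσ1 : 1 ≤ σ := by linarith
  have hσe := Real.add_one_le_exp σ
  refine ⟨κ * σ ^ 3, by positivity, fun h M B v a w m hh hM hB hMB ha hm hv hw hlt => ?_⟩
  have h1 : (1 : ℝ) ≤ h := by exact_mod_cast hh
  have h0 : (0 : ℝ) < h := by linarith
  have hL : 0 ≤ Real.log (2 * h) := Real.log_nonneg (by linarith)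
  have hE : 2 * (h : ℝ) ≤ Real.exp (1 + Real.log (2 * h)) := by
    rw [Real.exp_add, Real.exp_log (by positivity)]
    exact le_mul_of_one_le_left (by positivity) (Real.one_le_exp zero_le_one)
  have pos : ∀ {e u : ℕ}, ((e * u : ℕ) - h : ℝ) ^ 2 ≤ M * h → 0 < e * u := fun {e u} hu => by
    have h2 := (win_half h0 hM hu).1
    have h3 : (0 : ℝ) < ((e * u : ℕ) : ℝ) := by linarith
    exact_mod_cast h3
  have v0 : ∀ i, 0 < v i := fun i => Nat.pos_of_mul_pos_left (pos (hv i))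
  have w0 : ∀ i, 0 < w i := fun i => Nat.pos_of_mul_pos_left (pos (hw i))
  have hV : 0 < ∏ i, v i ^ a i := prod_pos fun i _ => pow_pos (v0 i) _
  have hW : 0 < ∏ i, w i ^ m i := prod_pos fun i _ => pow_pos (w0 i) _
  have hpos : 0 < Real.log ((C * ∏ i, w i ^ m i : ℕ) : ℝ) -
      Real.log ((A * ∏ i, v i ^ a i : ℕ) : ℝ) :=
    sub_pos.2 (Real.log_lt_log (by exact_mod_cast Nat.mul_pos hA hV) (by exact_mod_cast hlt))
  let r : Fin 4 ⊕ (Fin R ⊕ Fin R) → ℕ :=
    Sum.elim ![h, C, c, c'] (Sum.elim (fun i => c * v i) fun i => c' * w i)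
  let s : Fin 4 ⊕ (Fin R ⊕ Fin R) → ℕ := Sum.elim ![1, A, 1, 1] fun _ => h
  let b : Fin 4 ⊕ (Fin R ⊕ Fin R) → ℤ :=
    Sum.elim ![(∑ i, m i : ℕ) - (∑ i, a i : ℕ), 1, (∑ i, a i : ℕ), -(∑ i, m i : ℕ)]
      (Sum.elim (fun i => -(a i : ℤ)) fun i => m i)
  have hs : ∑ i, (b i : ℝ) * Real.log ((r i : ℝ) / s i) =
      Real.log ((C * ∏ i, w i ^ m i : ℕ) : ℝ) - Real.log ((A * ∏ i, v i ^ a i : ℕ) : ℝ) := by
    have e1 : ∀ {e u : ℕ}, 0 < e → 0 < u → Real.log (((e * u : ℕ) : ℝ) / h) =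
        Real.log e + Real.log u - Real.log h := fun he hu => by
      rw [Real.log_div (by positivity) h0.ne', Nat.cast_mul,
        Real.log_mul (by positivity) (by positivity)]
    rw [Nat.cast_mul C, Nat.cast_mul A, Real.log_mul C0.ne' (by positivity),
      Real.log_mul A0.ne' (by positivity), log_prod_pow m w0, log_prod_pow a v0,
      Fintype.sum_sum_type, Fintype.sum_sum_type, Fin.sum_univ_four]
    simp only [r, s, b, Sum.elim_inl, Sum.elim_inr, e1 hc (v0 _), e1 hc' (w0 _)]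
    simp only [Matrix.cons_val_zero, Matrix.cons_val_one, Matrix.cons_val, Nat.cast_one, div_one]
    rw [Real.log_div C0.ne' A0.ne']
    push_cast
    simp only [mul_sub, mul_add, neg_mul, sum_sub_distrib, sum_add_distrib, sum_neg_distrib,
      ← sum_mul]
    ring
  have key := H r s (Sum.elim ![1 + Real.log (2 * h), σ, σ, σ] fun _ => 1 + Real.log (2 * h)) b
    (Sum.inl 0) (univ.map Function.Embedding.inr) B
    (by
      rintro (j | j | j)
      · fin_cases j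
        · exact ⟨hh, one_pos, by simpa using hL, by simp [r]; linarith, by simp [s]; linarith⟩
        · exact ⟨hC, hA, hσ1, by simp [r]; linarith, by simp [s]; linarith⟩
        · exact ⟨hc, one_pos, hσ1, by simp [r]; linarith, by simp [s]; linarith⟩
        · exact ⟨hc', one_pos, hσ1, by simp [r]; linarith, by simp [s]; linarith⟩
      · exact ⟨pos (hv j), hh, by simpa using hL, (win_half h0 hM (hv j)).2.trans hE,
          le_trans (by simp [s]; linarith) hE⟩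
      · exact ⟨pos (hw j), hh, by simpa using hL, (win_half h0 hM (hw j)).2.trans hE,
          le_trans (by simp [s]; linarith) hE⟩) hB
    (by
      have p0 : (0 : ℝ) ≤ (∑ i, a i : ℕ) := Nat.cast_nonneg _
      have q0 : (0 : ℝ) ≤ (∑ i, m i : ℕ) := Nat.cast_nonneg _
      rintro (j | j | j)
      · fin_cases j
        · simp only [b, Sum.elim_inl, Fin.zero_eta, Matrix.cons_val_zero, Int.cast_sub,
            Int.cast_natCast]
          rw [abs_le]; constructor <;> linarith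
        · simp [b]; linarith
        · simpa [b, abs_of_nonneg, sum_nonneg] using ha
        · simpa [b, abs_of_nonneg, sum_nonneg] using hm
      · refine le_trans ?_ ha
        simpa [b] using single_le_sum (f := fun i => (a i : ℝ)) (fun _ _ => by positivity)
          (mem_univ j)
      · refine le_trans ?_ hm
        simpa [b] using single_le_sum (f := fun i => (m i : ℝ)) (fun _ _ => by positivity)
          (mem_univ j))
    (by simp)
    (by
      intro i hi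
      obtain ⟨j, -, rfl⟩ := mem_map.1 hi
      refine ⟨le_rfl, ?_⟩
      rcases j with j | j
      · exact win_log h0 hM (hv j) hB hMB
      · exact win_log h0 hM (hw j) hB hMB)
    (by rw [hs]; exact hpos.ne')
  rw [hs, abs_of_pos hpos] at key
  have e2 : (univ.map (Function.Embedding.inr : (Fin R ⊕ Fin R) ↪ Fin 4 ⊕ (Fin R ⊕ Fin R)))ᶜ =
      univ.map Function.Embedding.inl := by
    ext (j | j) <;> simp
  rw [e2, prod_map, Fin.prod_univ_four, card_map, card_univ] at key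
  convert key using 4
  · simp; ring
  · simp; ring

end Pool.Agent.Lib.MP_4ffbf9_nt.JW
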