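import Mathlib
import Pool.Agent.Lib.MP_4ffbf9_nt.JW.Gap
import Pool.Agent.Lib.MP_4ffbf9_nt.PR.Win2

/-!
No solutions of large degree whose scaled factors lie in one window.
-/

set_option autoImplicit false

namespace Pool.Agent.Lib.MP_4ffbf9_nt.JW

open Finset

theorem pow_ok {t T h n e D : ℕ} (ht : t ≤ T ^ n * h ^ (2 * e)) (he : 4 * D * e ≤ n)
    (hT : T ^ (2 * D) ≤ h) (hh : 0 < h) : t ^ D ≤ h ^ n := by
  refine le_of_pow_le_pow_left₀ two_ne_zero (Nat.zero_le _) ?_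
  calc (t ^ D) ^ 2 = t ^ (2 * D) := by ring
    _ ≤ (T ^ n * h ^ (2 * e)) ^ (2 * D) := by gcongr
    _ = (T ^ (2 * D)) ^ n * h ^ (4 * D * e) := by ring
    _ ≤ h ^ n * h ^ n := Nat.mul_le_mul (by gcongr) (Nat.pow_le_pow_right hh he)
    _ = _ := by ring

theorem add_gap {U V W E : ℝ} (hU : 0 < U) (hV : 0 < V) (hE : 0 ≤ E) (h : V + U = W)
    (hg : Real.exp (-E) ≤ Real.log W - Real.log V) : Real.log W ≤ Real.log U + 1 + E := by
  have hW : 0 < W := by linarith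
  rw [← Real.log_div hW.ne' hV.ne'] at hg
  have h1 := hg.trans (Real.log_le_sub_one_of_pos (div_pos hW hV))
  rw [div_sub_one hV.ne', le_div_iff₀ hV, Real.exp_neg, inv_mul_le_iff₀ (Real.exp_pos E)] at h1
  rw [Real.log_le_iff_le_exp hW, Real.exp_add, Real.exp_add, Real.exp_log hU]
  have h2 := Real.add_one_le_exp 1
  have h3 := mul_le_mul_of_nonneg_left (Real.one_le_exp hE) hU.le
  have h4 : U * 2 * Real.exp E ≤ U * Real.exp 1 * Real.exp E := by gcongr; linarith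
  have h5 : W - V = U := by linarith
  rw [h5] at h1
  linarith

theorem win_pos {c u h : ℕ} {M : ℝ} (hh : 0 < h) (hM : 4 * M ≤ h)
    (hu : ((c * u : ℕ) - h : ℝ) ^ 2 ≤ M * h) : 0 < c * u ∧ h ≤ 2 * (c * u) ∧ c * u ≤ 2 * h := by
  obtain ⟨h1, h2⟩ := win_half (by exact_mod_cast hh) hM hu
  have h3 : h ≤ 2 * (c * u) := by exact_mod_cast h1
  exact ⟨by omega, h3, by exact_mod_cast h2⟩

theorem log_bounds {R c h : ℕ} {M σ : ℝ} {w : Fin R → ℕ} (m : Fin R → ℕ) (hh : 0 < h)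
    (hM : 4 * M ≤ h) (hσ : 1 + (c : ℝ) ≤ σ) (hw : ∀ i, ((c * w i : ℕ) - h : ℝ) ^ 2 ≤ M * h) :
    (∑ i, m i : ℕ) * (Real.log h - σ) ≤ Real.log ((∏ i, w i ^ m i : ℕ) : ℝ) ∧
      Real.log ((∏ i, w i ^ m i : ℕ) : ℝ) ≤ (∑ i, m i : ℕ) * (Real.log h + 1) := by
  have h0 : (0 : ℝ) < h := by exact_mod_cast hh
  have l2 : Real.log 2 ≤ 1 := by linarith [Real.log_two_lt_d9]
  have w0 : ∀ i, 0 < w i := fun i => Nat.pos_of_mul_pos_left (win_pos hh hM (hw i)).1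
  rw [log_prod_pow m w0, Nat.cast_sum, sum_mul, sum_mul]
  have key : ∀ i, Real.log h - σ ≤ Real.log (w i) ∧ Real.log (w i) ≤ Real.log h + 1 := fun i => by
    obtain ⟨h1, h2, h3⟩ := win_pos hh hM (hw i)
    have c0 : 0 < c := Nat.pos_of_mul_pos_right h1
    have c1 : (0 : ℝ) < c := by exact_mod_cast c0
    have w1 : (0 : ℝ) < w i := by exact_mod_cast w0 i
    have h4 := Real.log_le_log h0 (show (h : ℝ) ≤ 2 * (c * w i) by exact_mod_cast h2)
    have h5 := Real.log_le_log w1 (show (w i : ℝ) ≤ 2 * h by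
      exact_mod_cast (Nat.le_mul_of_pos_left _ c0).trans h3)
    rw [Real.log_mul two_ne_zero (by positivity), Real.log_mul c1.ne' w1.ne'] at h4
    rw [Real.log_mul two_ne_zero h0.ne'] at h5
    constructor <;> linarith [Real.log_le_sub_one_of_pos c1]
  exact ⟨sum_le_sum fun i _ => by gcongr; exact (key i).1,
    sum_le_sum fun i _ => by gcongr; exact (key i).2⟩

theorem deg_close (A B C R G : ℕ) (c : Fin 3 → ℕ) (M : ℝ) (hA : 0 < A) (hB : 0 < B) (hC : 0 < C)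
    (hc : ∀ k, 0 < c k) : ∃ n1 h1 : ℕ, ∀ (h : ℕ) (w m : Fin 3 → Fin R → ℕ) (n : Fin 3 → ℕ),
      (∀ k, ∑ i, m k i = n k) → n1 ≤ n 0 + n 1 + n 2 → h1 ≤ h →
      (∀ k i, ((c k * w k i : ℕ) - h : ℝ) ^ 2 ≤ M * h) →
      A * ∏ i, w 0 i ^ m 0 i + B * ∏ i, w 1 i ^ m 1 i = C * ∏ i, w 2 i ^ m 2 i →
      ∀ j k, G * n j ≤ G * n k + 4 * (n 0 + n 1 + n 2) := by
  obtain ⟨κ0, hκ0, H0⟩ := baker_gap A C (c 0) (c 2) R hA hC (hc 0) (hc 2)
  obtain ⟨κ1, hκ1, H1⟩ := baker_gap B C (c 1) (c 2) R hB hC (hc 1) (hc 2)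
  obtain ⟨σ, hσ⟩ : ∃ σ : ℝ, σ = 1 + c 0 + c 1 + c 2 := ⟨_, rfl⟩
  obtain ⟨N1, hN1⟩ := Filter.eventually_atTop.1 ((Real.isLittleO_pow_log_id_atTop
    (n := 4 * R + 2)).bound (c := 1 / (6 * (G + 1) * (κ0 + κ1))) (by positivity))
  refine ⟨⌈N1⌉₊ + ⌈8 * M⌉₊ + 2 * G * (1 + A + B + C) + 3, ⌈Real.exp (G * σ)⌉₊ + ⌈4 * M⌉₊ + 3,
    fun h w m n hn hN hh hw he => ?_⟩
  obtain ⟨N, hNe⟩ : ∃ N, N = n 0 + n 1 + n 2 := ⟨_, rfl⟩
  rw [← hNe] at hN ⊢
  have hh0 : 0 < h := by omega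
  have h3 : (3 : ℝ) ≤ h := by exact_mod_cast (by omega : 3 ≤ h)
  have hM : 4 * M ≤ h := Nat.ceil_le.1 (by omega)
  have hl : 1 ≤ Real.log h := by
    rw [Real.le_log_iff_exp_le (by linarith)]
    linarith [Real.exp_one_lt_three]
  have hGσ : G * σ ≤ Real.log h := by
    rw [Real.le_log_iff_exp_le (by linarith)]
    exact Nat.ceil_le.1 (by omega)
  have hcσ : ∀ k, 1 + (c k : ℝ) ≤ σ := fun k => by
    have : 1 + c k ≤ 1 + c 0 + c 1 + c 2 := by fin_cases k <;> simp <;> omega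
    rw [hσ]
    exact_mod_cast this
  have hσ1 : 1 ≤ σ := by linarith [hcσ 0, Nat.cast_nonneg (α := ℝ) (c 0)]
  have N3 : (3 : ℝ) ≤ N := by exact_mod_cast (by omega : 3 ≤ N)
  have N8 : 8 * M ≤ N := Nat.ceil_le.1 (by omega)
  have hnN : ∀ k, ((∑ i, m k i : ℕ) : ℝ) ≤ N := fun k => by
    have : n k ≤ N := by fin_cases k <;> simp <;> omega
    rw [hn]
    exact_mod_cast this
  have hW : ∀ k, 0 < ∏ i, w k i ^ m k i := fun k => prod_pos fun i _ =>
    pow_pos (Nat.pos_of_mul_pos_left (win_pos hh0 hM (hw k i)).1) _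
  obtain ⟨L, hL⟩ : ∃ L : Fin 3 → ℝ, ∀ k, L k = Real.log ((∏ i, w k i ^ m k i : ℕ) : ℝ) :=
    ⟨_, fun _ => rfl⟩
  have hlog : ∀ {a : ℕ} (k), 0 < a → L k ≤ Real.log ((a * ∏ i, w k i ^ m k i : ℕ) : ℝ) ∧
      Real.log ((a * ∏ i, w k i ^ m k i : ℕ) : ℝ) ≤ L k + a := fun {a} k ha => by
    have a1 : (1 : ℝ) ≤ a := by exact_mod_cast ha
    rw [Nat.cast_mul, Real.log_mul (by linarith) (by exact_mod_cast (hW k).ne'), hL]
    constructor <;> linarith [Real.log_nonneg a1, Real.log_le_sub_one_of_pos (by linarith : 0 < (a : ℝ))]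
  have key : ∀ (j k : Fin 3) (E : ℝ), n j + n k ≤ N → G * E ≤ N * Real.log h → L j ≤ L k + E →
      G * n j ≤ G * n k + 2 * N := fun j k E hjk hE hle => by
    have h1 := (log_bounds (m j) hh0 hM (hcσ j) (hw j)).1
    have h2 := (log_bounds (m k) hh0 hM (hcσ k) (hw k)).2
    rw [← hL, hn] at h1 h2
    have h4 : (n j : ℝ) + n k ≤ N := by exact_mod_cast hjk
    have h5 : (n j : ℝ) * Real.log h ≤ n k * Real.log h + σ * N + E := by
      nlinarith [Nat.cast_nonneg (α := ℝ) (n k)]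
    have h6 := mul_le_mul_of_nonneg_left h5 (Nat.cast_nonneg (α := ℝ) G)
    have h7 := mul_le_mul_of_nonneg_right hGσ (Nat.cast_nonneg (α := ℝ) N)
    have h8 : (G * n j : ℝ) ≤ G * n k + 2 * N :=
      le_of_mul_le_mul_right (a := Real.log h) (by linarith) (by linarith)
    exact_mod_cast h8
  have hG : (2 : ℝ) * G * (1 + A + B + C) ≤ N := by
    exact_mod_cast (by omega : 2 * G * (1 + A + B + C) ≤ N)
  have hΛ0 : 0 ≤ Real.log N ^ (4 * R + 2) := pow_nonneg (Real.log_nonneg (by linarith)) _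
  have hΛ := hN1 N (Nat.ceil_le.1 (by omega))
  rw [Real.norm_of_nonneg hΛ0, id, Real.norm_of_nonneg (by linarith), one_div,
    le_inv_mul_iff₀ (by positivity)] at hΛ
  have hl' : 1 + Real.log (2 * h) ≤ 3 * Real.log h := by
    rw [Real.log_mul two_ne_zero (by linarith)]
    linarith [Real.log_two_lt_d9]
  have hl0 : 0 ≤ 1 + Real.log (2 * h) := by
    linarith [Real.log_nonneg (by linarith : (1 : ℝ) ≤ 2 * h)]
  have err : ∀ (a : ℕ) (κ : ℝ), a ≤ A + B + C → 0 ≤ κ → κ ≤ κ0 + κ1 →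
      G * (a + 1 + κ * (1 + Real.log (2 * h)) * Real.log N ^ (4 * R + 2)) ≤ N * Real.log h :=
    fun a κ ha hκ hκ' => by
      have a1 : (a : ℝ) ≤ A + B + C := by exact_mod_cast ha
      have e1 : G * (κ * (1 + Real.log (2 * h)) * Real.log N ^ (4 * R + 2)) ≤
          (G + 1) * ((κ0 + κ1) * (3 * Real.log h) * Real.log N ^ (4 * R + 2)) := by
        gcongr
        linarith
      have e2 := mul_le_mul_of_nonneg_right hΛ (by linarith : 0 ≤ Real.log h)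
      have e3 : G * ((a : ℝ) + 1) ≤ G * (1 + A + B + C) :=
        mul_le_mul_of_nonneg_left (by linarith) (Nat.cast_nonneg _)
      have e4 : (N : ℝ) * 1 ≤ N * Real.log h := by gcongr
      linarith
  have pA := Nat.mul_pos hA (hW 0)
  have pB := Nat.mul_pos hB (hW 1)
  have up : ∀ j, G * n j ≤ G * n 2 + 2 * N := by
    have e := err C 0 (by omega) le_rfl (by positivity)
    have u : ∀ {a : ℕ} (j), 0 < a → n j + n 2 ≤ N →
        a * ∏ i, w j i ^ m j i ≤ C * ∏ i, w 2 i ^ m 2 i → G * n j ≤ G * n 2 + 2 * N :=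
      fun {a} j ha hj hle => key j 2 _ hj e (by
        have := Real.log_le_log (Nat.cast_pos.2 (Nat.mul_pos ha (hW j))) (Nat.cast_le.2 hle)
        linarith [(hlog j ha).1, (hlog 2 hC).2])
    intro j
    fin_cases j
    · exact u 0 hA (by omega) (by omega)
    · exact u 1 hB (by omega) (by omega)
    · exact Nat.le_add_right _ _
  have dn : ∀ k, G * n 2 ≤ G * n k + 2 * N := by
    intro k
    fin_cases k
    · refine key 2 0 _ (by omega) (err A κ1 (by omega) hκ1.le (by linarith)) ?_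
      have := add_gap (Nat.cast_pos.2 pA) (Nat.cast_pos.2 pB) (by positivity)
        (by rw [← Nat.cast_add, add_comm, he])
        (H1 h M N _ _ _ _ hh0 hM N3 N8 (hnN 1) (hnN 2) (hw 1) (hw 2) (by omega))
      linarith [(hlog 0 hA).2, (hlog 2 hC).1]
    · refine key 2 1 _ (by omega) (err B κ0 (by omega) hκ0.le (by linarith)) ?_
      have := add_gap (Nat.cast_pos.2 pB) (Nat.cast_pos.2 pA) (by positivity)
        (by rw [← Nat.cast_add, he])
        (H0 h M N _ _ _ _ hh0 hM N3 N8 (hnN 0) (hnN 2) (hw 0) (hw 2) (by omega))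
      linarith [(hlog 1 hB).2, (hlog 2 hC).1]
    · exact Nat.le_add_right _ _
  intro j k
  have := up j
  have := dn k
  omega

theorem large (A B C R : ℕ) (c : Fin 3 → ℕ) (Q M : ℝ) (hA : 0 < A) (hB : 0 < B) (hC : 0 < C)
    (hc : ∀ k, 0 < c k) : ∃ n0 h0 : ℕ, ∀ (h : ℕ) (w m : Fin 3 → Fin R → ℕ) (n : Fin 3 → ℕ),
      (∀ k, ∑ i, m k i = n k) → n0 ≤ n 0 + n 1 + n 2 → h0 ≤ h →
      (∀ k i, ((c k * w k i : ℕ) - h : ℝ) ^ 2 ≤ M * h) →
      PR.GcdOk Q (∏ i, w 0 i ^ m 0 i) (∏ i, w 1 i ^ m 1 i) →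
      A * ∏ i, w 0 i ^ m 0 i + B * ∏ i, w 1 i ^ m 1 i ≠ C * ∏ i, w 2 i ^ m 2 i := by
  obtain ⟨D, h0, n0, H⟩ := PR.window (Fin 3 × Fin R) 4 (by norm_num)
  obtain ⟨n1, h1, H1⟩ := deg_close A B C R (64 * (D + 1)) c M hA hB hC hc
  obtain ⟨S, hS⟩ : ∃ S, S = B + C + A * ⌈Q⌉₊ := ⟨_, rfl⟩
  obtain ⟨P, hP⟩ : ∃ P, P = c 0 * c 1 * c 2 := ⟨_, rfl⟩
  refine ⟨n1 + 4 * (n0 + 4 * D * R + 1), h0 + h1 + ⌈4 * M⌉₊ + ⌈M ^ 2⌉₊ + (S * P) ^ (2 * D) + 2,
    fun h w m n hn hN hh hw hQ he => ?_⟩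
  have hh0 : 0 < h := by omega
  have hM : 4 * M ≤ h := Nat.ceil_le.1 (by omega)
  have hM2 : M ^ 2 ≤ h := Nat.ceil_le.1 (by omega)
  have hcl := H1 h w m n hn (by omega) (by omega) hw he
  obtain ⟨k0, -, hk0⟩ := exists_min_image univ n univ_nonempty
  obtain ⟨ν, hν⟩ : ∃ ν, ν = n k0 := ⟨_, rfl⟩
  have hex : ∀ k, ∃ e, n k = ν + e ∧ 16 * (D + 1) * e ≤ n 0 + n 1 + n 2 := fun k => by
    obtain ⟨e, he⟩ := Nat.exists_eq_add_of_le (hk0 k (mem_univ k))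
    have := hcl k k0
    rw [he, mul_add] at this
    exact ⟨e, hν ▸ he, by nlinarith⟩
  choose e hne he' using hex
  have hN4 : n 0 + n 1 + n 2 ≤ 4 * ν := by
    have := he' 0
    have := he' 1
    have := he' 2
    have := hne 0
    have := hne 1
    have := hne 2
    nlinarith [Nat.zero_le (D * e 0), Nat.zero_le (D * e 1), Nat.zero_le (D * e 2)]
  have he4 : ∀ k, 4 * D * e k ≤ ν := fun k => by nlinarith [he' k]
  have hsp : ∀ k, ∃ p q : Fin R → ℕ, ∑ i, p i = ν ∧ ∑ i, q i = e k ∧ ∀ i, m k i = p i + q i :=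
    fun k => by
      obtain ⟨p, hp, hpd⟩ := Finsupp.exists_le_degree_eq (Finsupp.equivFunOnFinite.symm (m k)) ν
        (by rw [Finsupp.degree_eq_sum]; simp [hn, hne k])
      rw [Finsupp.degree_eq_sum] at hpd
      have hp' : ∀ i, m k i = p i + (m k i - p i) := fun i =>
        (Nat.add_sub_cancel' (by simpa using hp i)).symm
      refine ⟨p, fun i => m k i - p i, hpd, ?_, hp'⟩
      have := hn k
      rw [sum_congr rfl fun i _ => hp' i, sum_add_distrib, hpd, hne k] at this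
      exact Nat.add_left_cancel this
  choose p q hp hq hpq using hsp
  have w0 : ∀ k i, 0 < w k i := fun k i => Nat.pos_of_mul_pos_left (win_pos hh0 hM (hw k i)).1
  have w2 : ∀ k i, w k i ≤ h ^ 2 := fun k i =>
    ((Nat.le_mul_of_pos_left _ (hc k)).trans (win_pos hh0 hM (hw k i)).2.2).trans
      (by rw [sq]; exact Nat.mul_le_mul_right _ (by omega))
  obtain ⟨V, hV⟩ : ∃ V : Fin 3 → ℕ, ∀ k, V k = ∏ i, w k i ^ p k i := ⟨_, fun _ => rfl⟩
  obtain ⟨E, hE⟩ : ∃ E : Fin 3 → ℕ, ∀ k, E k = ∏ i, w k i ^ q k i := ⟨_, fun _ => rfl⟩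
  have hW : ∀ k, ∏ i, w k i ^ m k i = E k * V k := fun k => by
    simp only [hV, hE, hpq, pow_add, prod_mul_distrib, mul_comm]
  have V0 : ∀ k, 0 < V k := fun k => hV k ▸ prod_pos fun i _ => pow_pos (w0 k i) _
  have E0 : ∀ k, 0 < E k := fun k => hE k ▸ prod_pos fun i _ => pow_pos (w0 k i) _
  have E1 : ∀ k, E k ≤ h ^ (2 * e k) := fun k => by
    rw [hE, pow_mul, ← hq, ← prod_pow_eq_pow_sum]
    exact prod_le_prod' fun i _ => Nat.pow_le_pow_left (w2 k i) _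
  let ε : Fin 3 → (Fin 3 × Fin R →₀ ℕ) := fun k =>
    Finsupp.equivFunOnFinite.symm fun v => if v.1 = k then p k v.2 else 0
  have hε : ∀ k, ∑ v, ε k v = ν := fun k => by
    simp [ε, Fintype.sum_prod_type, sum_ite_irrel, hp]
  have hm : ∀ k, PR.mon (fun v : Fin 3 × Fin R => c v.1 * w v.1 v.2) (ε k) = c k ^ ν * V k :=
    fun k => by
      rw [hV, ← hp k, ← prod_pow_eq_pow_sum, ← prod_mul_distrib]
      simp [PR.mon, ε, Fintype.prod_prod_type, prod_ite_irrel, mul_pow]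
  have c0 := hc 0
  have c1 := hc 1
  have c2 := hc 2
  have ok : ∀ {a b u ee : ℕ}, a ≤ S → b ≤ P → u ≤ h ^ (2 * ee) → 4 * D * ee ≤ ν →
      (a * b ^ ν * u) ^ D ≤ h ^ ν := fun ha hb hu hee => by
    refine pow_ok (T := S * P) ?_ hee (by omega) hh0
    rw [mul_pow]
    gcongr
    exact ha.trans (Nat.le_self_pow (by omega) _)
  rw [hW, hW] at hQ
  rw [hW, hW, hW] at he
  refine H ν h (fun v => c v.1 * w v.1 v.2) (ε 0) (ε 1) (ε 2) (A * (c 1 * c 2) ^ ν * E 0)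
    (B * (c 0 * c 2) ^ ν * E 1) (C * (c 0 * c 1) ^ ν * E 2) (by omega) (by omega) (fun v => ?_)
    (hε 0) (hε 1) (hε 2) (by have := E0 0; positivity) (by have := E0 1; positivity)
    (by have := E0 2; positivity)
    (ok (by omega) (by rw [hP, mul_right_comm]; exact Nat.le_mul_of_pos_right _ c1) (E1 1) (he4 1))
    (ok (by omega) (by rw [hP]; exact Nat.le_mul_of_pos_right _ c2) (E1 2) (he4 2)) ?_ ?_
  · have hr : (0 : ℝ) < h := by exact_mod_cast hh0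
    have h2 := pow_le_pow_left₀ (sq_nonneg _) (hw v.1 v.2) 2
    rw [Even.pow_abs (by decide), div_sub_one hr.ne', div_pow, div_mul_eq_mul_div,
      div_le_one (by positivity)]
    calc _ = ((((c v.1 * w v.1 v.2 : ℕ) : ℝ) - h) ^ 2) ^ 2 * h := by ring
      _ ≤ (M * h) ^ 2 * h := by gcongr
      _ = M ^ 2 * h ^ 3 := by ring
      _ ≤ h * h ^ 3 := by gcongr
      _ = _ := by ring
  · rw [hm, hm]
    have g1 := Nat.gcd_dvd_left (V 1) (V 2)
    have g2 := Nat.gcd_dvd_right (V 1) (V 2)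
    have hg := PR.w2_gcd (W := ∏ i, w 1 i) (n := ν) hA (Nat.mul_pos (E0 1) (V0 1))
      (prod_pos fun i _ => w0 1 i) (by omega) hQ
      ((Nat.dvd_add_left ((g1.mul_left _).mul_left B)).1 (he ▸ (g2.mul_left _).mul_left C))
      (g1.mul_left _) (g1.trans (by
        rw [hV, ← prod_pow]
        exact prod_dvd_prod_of_dvd _ _ fun i _ => pow_dvd_pow _
          (hp 1 ▸ single_le_sum (fun _ _ => Nat.zero_le _) (mem_univ i))))
    have hd : Nat.gcd (c 1 ^ ν * V 1) (c 2 ^ ν * V 2) ∣ (c 1 * c 2) ^ ν * Nat.gcd (V 1) (V 2) := by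
      rw [← Nat.gcd_mul_left, mul_pow]
      exact Nat.gcd_dvd_gcd_of_dvd_left _ ⟨c 2 ^ ν, by ring⟩ |>.trans
        (Nat.gcd_dvd_gcd_of_dvd_right _ ⟨c 1 ^ ν, by ring⟩)
    have hR : ∏ i, w 1 i ≤ h ^ (2 * R) :=
      (prod_le_pow_card _ _ _ fun i _ => w2 1 i).trans (by simp [pow_mul])
    refine le_trans (Nat.pow_le_pow_left ?_ _) (ok (a := A * ⌈Q⌉₊) (b := c 1 * c 2) (by omega)
      (by rw [hP, mul_assoc]; exact Nat.le_mul_of_pos_left _ c0) hR (by omega))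
    refine (Nat.le_of_dvd (Nat.mul_pos (by positivity) (Nat.gcd_pos_of_pos_left _ (V0 1))) hd).trans ?_
    rw [mul_right_comm, mul_comm]
    exact Nat.mul_le_mul_right _ hg
  · rw [hm, hm, hm]
    simp only [mul_pow]
    linear_combination (c 0 ^ ν * c 1 ^ ν * c 2 ^ ν) * he

end Pool.Agent.Lib.MP_4ffbf9_nt.JW
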