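import Mathlib

/-!
Expansions of `f (H + S)` when `S ^ 2 = O(H)`.
-/

set_option autoImplicit false

namespace Pool.Agent.Lib.MP_4ffbf9_nt.JW

open Filter Asymptotics Polynomial

variable {ι : Type} {l : Filter ι} {H S : ι → ℝ}

theorem pow_O (hH : Tendsto H l atTop) {i j : ℕ} (h : i ≤ j) :
    (fun x => H x ^ i) =O[l] fun x => H x ^ j := by
  refine IsBigO.of_bound 1 ((hH.eventually_ge_atTop 1).mono fun x hx => ?_)
  rw [one_mul, norm_pow, norm_pow, Real.norm_of_nonneg (by linarith)]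
  exact pow_le_pow_right₀ hx h

theorem one_o (hH : Tendsto H l atTop) : (fun _ => (1 : ℝ)) =o[l] H :=
  isLittleO_const_left.2 (Or.inr (tendsto_norm_atTop_atTop.comp hH))

theorem small_o (hH : Tendsto H l atTop) (hS : (fun x => S x ^ 2) =O[l] H) : S =o[l] H := by
  refine IsLittleO.of_pow (n := 2) (hS.trans_isLittleO ?_) two_ne_zero
  exact ((one_o hH).mul_isBigO (isBigO_refl H l)).congr (fun x => one_mul _) fun x => (sq _).symm

theorem mono_O (hH : Tendsto H l atTop) (hS : (fun x => S x ^ 2) =O[l] H) {i j m : ℕ}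
    (h2 : 2 * j ≤ i) (him : i ≤ m) :
    (fun x => S x ^ i * H x ^ (m - i)) =O[l] fun x => H x ^ (m - j) := by
  obtain ⟨a, rfl⟩ := Nat.exists_eq_add_of_le h2
  obtain ⟨b, rfl⟩ := Nat.exists_eq_add_of_le him
  have h := ((hS.pow j).mul ((small_o hH hS).isBigO.pow a)).mul (isBigO_refl (fun x => H x ^ b) l)
  refine h.congr (fun x => ?_) fun x => ?_
  · rw [Nat.add_sub_cancel_left, pow_add, pow_mul]
  · rw [show 2 * j + a + b - j = j + a + b by omega, pow_add, pow_add]

theorem binom_tail (hH : Tendsto H l atTop) (hS : (fun x => S x ^ 2) =O[l] H) (m j : ℕ) :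
    (fun x => (H x + S x) ^ m - ∑ i ∈ Finset.range (2 * j), S x ^ i * H x ^ (m - i) * m.choose i)
      =O[l] fun x => H x ^ (m - j) := by
  have h : ∀ x, (H x + S x) ^ m -
      ∑ i ∈ Finset.range (2 * j), S x ^ i * H x ^ (m - i) * m.choose i =
      ∑ i ∈ Finset.Ico (2 * j) (m + 1 + 2 * j), S x ^ i * H x ^ (m - i) * m.choose i := fun x => by
    rw [Finset.sum_Ico_eq_sub _ (by omega), add_comm (H x), add_pow]
    congr 1
    refine Finset.sum_subset (Finset.range_mono (by omega)) fun i _ hi => ?_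
    rw [Nat.choose_eq_zero_of_lt (by simpa using hi), Nat.cast_zero, mul_zero]
  simp only [h]
  refine IsBigO.fun_sum fun i hi => ?_
  by_cases him : i ≤ m
  · simpa only [mul_comm _ ((m.choose i : ℕ) : ℝ)] using
      (mono_O hH hS (Finset.mem_Ico.1 hi).1 him).const_mul_left _
  · simp [Nat.choose_eq_zero_of_lt (not_le.1 him), isBigO_zero]

theorem low_O (hH : Tendsto H l atTop) (hS : (fun x => S x ^ 2) =O[l] H) {f : ℤ[X]} {d : ℕ}
    (hf : f.natDegree ≤ d) : (fun x => aeval (H x + S x) f) =O[l] fun x => H x ^ d := by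
  simp only [aeval_eq_sum_range' (Nat.lt_succ_of_le hf), zsmul_eq_mul]
  refine IsBigO.fun_sum fun i hi => IsBigO.const_mul_left ?_ _
  exact (((isBigO_refl H l).add (small_o hH hS).isBigO).pow i).trans
    (pow_O hH (Nat.lt_succ_iff.1 (Finset.mem_range.1 hi)))

theorem erase_le {f : ℤ[X]} {d : ℕ} (hf : f.natDegree ≤ d + 1) :
    (f - C (f.coeff (d + 1)) * X ^ (d + 1)).natDegree ≤ d := by
  rw [natDegree_le_iff_coeff_eq_zero] at hf ⊢
  intro N hN
  rw [coeff_sub, coeff_C_mul_X_pow]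
  split_ifs with h
  · rw [h, sub_self]
  · rw [hf N (by omega), sub_zero]

theorem exp_one (hH : Tendsto H l atTop) (hS : (fun x => S x ^ 2) =O[l] H) {f : ℤ[X]} {d : ℕ}
    (hf : f.natDegree ≤ d + 1) :
    (fun x => aeval (H x + S x) f - f.coeff (d + 1) * (H x + (d + 1) * S x) * H x ^ d)
      =O[l] fun x => H x ^ d := by
  have h := (low_O hH hS (erase_le hf)).add
    ((binom_tail hH hS (d + 1) 1).const_mul_left (f.coeff (d + 1) : ℝ))
  refine h.congr_left fun x => ?_
  simp [Finset.sum_range_succ]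
  ring

theorem exp_three (hH : Tendsto H l atTop) (hS : (fun x => S x ^ 2) =O[l] H) {f : ℤ[X]} {d : ℕ}
    (hf : f.natDegree ≤ d + 3) (h1 : f.coeff (d + 3) = 1) :
    (fun x => aeval (H x + S x) f - (H x ^ 3 + ((d + 3) * S x + f.coeff (d + 2)) * H x ^ 2 +
      ((d + 3).choose 2 * S x ^ 2 + f.coeff (d + 2) * (d + 2) * S x) * H x +
        (d + 3).choose 3 * S x ^ 3) * H x ^ d) =O[l] fun x => H x * H x ^ d := by
  have h2 := exp_one hH hS (d := d + 1) (erase_le (d := d + 2) hf)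
  have h3 : (f - C (f.coeff (d + 2 + 1)) * X ^ (d + 2 + 1)).coeff (d + 1 + 1) = f.coeff (d + 2) := by
    rw [coeff_sub, coeff_C_mul_X_pow, if_neg (by omega), sub_zero]
  rw [h3, h1] at h2
  refine (h2.add (binom_tail hH hS (d + 3) 2)).congr (fun x => ?_) fun x => pow_succ' _ _
  simp [Finset.sum_range_succ]
  ring

theorem cancel_O (hH : Tendsto H l atTop) {F G : ι → ℝ} {d : ℕ}
    (h : (fun x => F x * H x ^ d) =O[l] fun x => G x * H x ^ d) : F =O[l] G := by
  have h0 : ∀ᶠ x in l, H x ^ d ≠ 0 := (hH.eventually_gt_atTop 0).mono fun x hx => by positivity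
  refine (h.mul (isBigO_refl (fun x => (H x ^ d)⁻¹) l)).congr' ?_ ?_ <;>
    exact h0.mono fun x hx => mul_inv_cancel_right₀ hx _

theorem lead_zero [l.NeBot] (hH : Tendsto H l atTop) {e : ℝ} {U : ι → ℝ} (hU : U =o[l] H)
    (h : (fun x => e * H x + U x) =O[l] fun _ => (1 : ℝ)) : e = 0 := by
  by_contra he
  have h1 : (fun x => e * H x) =o[l] H := by
    simpa using (h.trans_isLittleO (one_o hH)).sub hU
  rw [isLittleO_const_mul_left_iff he] at h1
  exact isLittleO_irrefl ((hH.eventually_gt_atTop 0).mono fun x hx => hx.ne').frequently h1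

theorem const_of_O {𝒰 : Ultrafilter ι} {u : ι → ℤ}
    (h : (fun x => (u x : ℝ)) =O[𝒰] fun _ => (1 : ℝ)) : ∃ c, ∀ᶠ x in (𝒰 : Filter ι), u x = c := by
  obtain ⟨c, hc⟩ := h.bound
  obtain ⟨a, -, ha⟩ := Ultrafilter.eq_pure_of_finite_mem (f := 𝒰.map u)
    (Set.finite_Icc (-⌈c⌉) ⌈c⌉) (hc.mono fun x hx => by
      rw [norm_one, mul_one, Real.norm_eq_abs] at hx
      have := hx.trans (Int.le_ceil c)
      exact abs_le.1 (by exact_mod_cast this))
  refine ⟨a, ?_⟩
  have : {a} ∈ 𝒰.map u := by rw [ha]; exact Ultrafilter.mem_pure.2 rfl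
  exact this

end Pool.Agent.Lib.MP_4ffbf9_nt.JW
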