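import Mathlib
import Pool.Agent.Lib.MP_4ffbf9_nt.JW.Exp

/-!
Integer points of `A f(x) + B g(y) = C k(z)` in a parabolic region lie on polynomial curves.
-/

set_option autoImplicit false

namespace Pool.Agent.Lib.MP_4ffbf9_nt.JW

open Filter Asymptotics Polynomial

variable {ι : Type} {l : Filter ι} {H S T : ι → ℝ}

theorem one_bdd [l.NeBot] (hH : Tendsto H l atTop) (hS : (fun x => S x ^ 2) =O[l] H) {A : ℤ}
    (hA : A ≠ 0) {f : ℤ[X]} (hf : f.Monic) {p : ℕ} (hp : f.natDegree = p + 1) (j : ℕ) :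
    ∀ E : ℤ[X], E.natDegree ≤ p + j + 1 → (∀ᶠ x in l, A * aeval (H x + S x) f = aeval (H x) E) →
      S =O[l] fun _ => (1 : ℝ) := by
  have h0 : (fun _ : ι => (0 : ℝ) ^ 2) =O[l] H := by simp [isBigO_zero]
  have key : ∀ (d : ℕ) (E : ℤ[X]), p ≤ d → E.natDegree ≤ d + 1 →
      (∀ᶠ x in l, A * aeval (H x + S x) f = aeval (H x) E) →
      (fun x => ((A * f.coeff (d + 1) - E.coeff (d + 1) : ℤ) : ℝ) * H x +
        A * f.coeff (d + 1) * (d + 1) * S x) =O[l] fun _ => (1 : ℝ) := fun d E hd hE he => by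
    refine cancel_O hH (d := d) ?_
    have h := (exp_one hH h0 hE).sub ((exp_one hH hS (f := f) (d := d) (by omega)).const_mul_left
      (A : ℝ))
    refine h.congr' (he.mono fun x hx => ?_) (by simp)
    simp only [add_zero, mul_zero, mul_sub, hx]
    push_cast
    ring
  induction j with
  | zero =>
    intro E hE he
    have h := key p E le_rfl hE he
    have h1 := lead_zero hH ((small_o hH hS).const_mul_left _) h
    have h2 : f.coeff (p + 1) = 1 := hp ▸ hf.coeff_natDegree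
    simp only [h1, zero_mul, zero_add] at h
    rw [h2] at h
    exact (isBigO_const_mul_left_iff (by positivity)).1 h
  | succ j ih =>
    intro E hE he
    have h1 := lead_zero hH ((small_o hH hS).const_mul_left _) (key (p + j + 1) E (by omega) hE he)
    rw [coeff_eq_zero_of_natDegree_lt (by omega : f.natDegree < p + j + 1 + 1), mul_zero, zero_sub,
      Int.cast_eq_zero, neg_eq_zero] at h1
    refine ih E ?_ he
    simpa [h1] using erase_le (d := p + j + 1) hE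

theorem quad_bdd (hH : Tendsto H l atTop) (hS : (fun x => S x ^ 2) =O[l] H) {lam c₁ c₂ c₃ : ℝ}
    (hc : c₂ ≠ 0) (h : (fun x => lam * H x ^ 2 + (c₂ * S x ^ 2 + c₁ * S x) * H x + c₃ * S x ^ 3)
      =O[l] H) (h1 : ∀ᶠ x in l, 1 ≤ |S x|) :
    (fun x => lam * H x + c₂ * S x ^ 2 + (c₁ - c₃ * lam / c₂) * S x) =O[l] fun _ => (1 : ℝ) := by
  have o1 : (fun _ => (1 : ℝ)) =O[l] S := IsBigO.of_bound 1 (h1.mono fun x hx => by simpa using hx)
  have o2 : H =O[l] fun x => S x * H x := by simpa using o1.mul (isBigO_refl H l)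
  have o3 : (fun x => S x ^ 3) =O[l] fun x => S x * H x :=
    ((isBigO_refl S l).mul hS).congr_left fun x => by ring
  have o4 : (fun x => lam * H x + c₂ * S x ^ 2) =O[l] S := by
    refine cancel_O hH (d := 1) ?_
    refine (((h.trans o2).sub (o3.const_mul_left c₃)).sub
      ((isBigO_refl (fun x => S x * H x) l).const_mul_left c₁)).congr (fun x => ?_) fun x => ?_ <;>
      ring
  have o5 : (fun x => S x * (lam * H x + c₂ * S x ^ 2)) =O[l] H :=
    (((isBigO_refl S l).mul o4).congr_right fun x => (sq _).symm).trans hS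
  refine cancel_O hH (d := 1) ?_
  refine (h.sub (o5.const_mul_left (c₃ / c₂))).congr (fun x => ?_) fun x => by ring
  field_simp
  ring

theorem deg_pos_of_coeff {F : ℤ[X]} {j : ℕ} (hj : 0 < j) (h : F.coeff j ≠ 0) : 0 < F.natDegree :=
  hj.trans_le (le_natDegree_of_ne_zero h)

/-- The conclusion: the three numbers are values of nonconstant polynomials. -/
def OnCurve (l : Filter ι) (x y z : ι → ℤ) : Prop :=
  ∃ (N : ℤ) (F G K : ℤ[X]) (τ : ι → ℤ), N ≠ 0 ∧ 0 < F.natDegree ∧ 0 < G.natDegree ∧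
    0 < K.natDegree ∧ ∀ᶠ i in l, N * x i = F.eval (τ i) ∧ N * y i = G.eval (τ i) ∧
      N * z i = K.eval (τ i)

theorem onCurve_of_bdd {𝒰 : Ultrafilter ι} (h : ι → ℤ) {s t : ι → ℤ}
    (hs : (fun x => (s x : ℝ)) =O[𝒰] fun _ => (1 : ℝ))
    (ht : (fun x => (t x : ℝ)) =O[𝒰] fun _ => (1 : ℝ)) :
    OnCurve 𝒰 (fun i => h i + s i) (fun i => h i + t i) h := by
  obtain ⟨a, ha⟩ := const_of_O hs
  obtain ⟨b, hb⟩ := const_of_O ht
  refine ⟨1, X + C a, X + C b, X, h, one_ne_zero, by rw [natDegree_X_add_C]; norm_num,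
    by rw [natDegree_X_add_C]; norm_num, by simp, ?_⟩
  filter_upwards [ha, hb] with i h1 h2
  simp [h1, h2]

theorem aeval_cast (a b : ℤ) (f : ℤ[X]) : aeval ((a : ℝ) + b) f = ((f.eval (a + b) : ℤ) : ℝ) := by
  rw [← Int.cast_add, ← eq_intCast (algebraMap ℤ ℝ) (a + b), aeval_algebraMap_apply]
  simp

theorem other_bdd {𝒰 : Ultrafilter ι} {h s t : ι → ℤ} (hh : Tendsto (fun i => (h i : ℝ)) 𝒰 atTop)
    (hs : (fun i => (s i : ℝ) ^ 2) =O[𝒰] fun i => (h i : ℝ))
    (ht : (fun x => (t x : ℝ)) =O[𝒰] fun _ => (1 : ℝ)) {A B D : ℤ} (hA : A ≠ 0) {f g k : ℤ[X]}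
    (hf : f.Monic) (hp : 0 < f.natDegree)
    (he : ∀ᶠ i in (𝒰 : Filter ι),
      A * f.eval (h i + s i) + B * g.eval (h i + t i) = D * k.eval (h i)) :
    (fun x => (s x : ℝ)) =O[𝒰] fun _ => (1 : ℝ) := by
  obtain ⟨b, hb⟩ := const_of_O ht
  obtain ⟨p, hp'⟩ : ∃ p, f.natDegree = p + 1 := ⟨_, (Nat.succ_pred_eq_of_pos hp).symm⟩
  refine one_bdd hh hs hA hf hp' (C D * k - C B * g.comp (X + C b)).natDegree
    (C D * k - C B * g.comp (X + C b)) (by omega) ?_
  filter_upwards [he, hb] with i h1 h2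
  have h3 := aeval_cast (h i) 0 (C D * k - C B * g.comp (X + C b))
  rw [Int.cast_zero, add_zero, add_zero] at h3
  rw [aeval_cast, h3, eval_sub, eval_mul, eval_mul, eval_C, eval_C, eval_comp, eval_add, eval_X,
    eval_C, ← h2, ← h1]
  push_cast
  ring

theorem runge {𝒰 : Ultrafilter ι} {h s t : ι → ℤ} (hh : Tendsto (fun i => (h i : ℝ)) 𝒰 atTop)
    (hs : (fun i => (s i : ℝ) ^ 2) =O[𝒰] fun i => (h i : ℝ))
    (ht : (fun i => (t i : ℝ) ^ 2) =O[𝒰] fun i => (h i : ℝ)) {A B D : ℤ} (hA : 0 < A) (hB : 0 < B)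
    (hD : 0 < D) {f g k : ℤ[X]} (hf : f.Monic) (hg : g.Monic) (hk : k.Monic) (hf0 : 0 < f.natDegree)
    (hg0 : 0 < g.natDegree)
    (h3 : f.natDegree = k.natDegree → g.natDegree = k.natDegree → 3 ≤ k.natDegree)
    (he : ∀ᶠ i in (𝒰 : Filter ι),
      A * f.eval (h i + s i) + B * g.eval (h i + t i) = D * k.eval (h i)) :
    OnCurve 𝒰 (fun i => h i + s i) (fun i => h i + t i) h := by
  have h0 : (fun _ : ι => ((0 : ℤ) : ℝ) ^ 2) =O[𝒰] fun i => (h i : ℝ) := by simp [isBigO_zero]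
  have he' : ∀ᶠ i in (𝒰 : Filter ι), (A : ℝ) * aeval ((h i : ℝ) + s i) f +
      B * aeval ((h i : ℝ) + t i) g = D * aeval ((h i : ℝ) + (0 : ℤ)) k := he.mono fun i hi => by
    rw [aeval_cast, aeval_cast, aeval_cast, add_zero]
    exact_mod_cast hi
  obtain ⟨d, hd⟩ : ∃ d, max (max f.natDegree g.natDegree) k.natDegree = d + 1 :=
    ⟨_, (Nat.succ_pred_eq_of_pos (by omega)).symm⟩
  have hco : ∀ p : ℤ[X], p.Monic → p.natDegree ≤ d + 1 →
      (p.natDegree = d + 1 ∧ p.coeff (d + 1) = 1) ∨ (p.natDegree < d + 1 ∧ p.coeff (d + 1) = 0) :=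
    fun p hp hle => hle.eq_or_lt.imp (fun e => ⟨e, e ▸ hp.coeff_natDegree⟩)
      fun e => ⟨e, coeff_eq_zero_of_natDegree_lt e⟩
  have h1 : (fun i => ((A * f.coeff (d + 1) + B * g.coeff (d + 1) - D * k.coeff (d + 1) : ℤ) : ℝ) *
      h i + (d + 1) * (A * f.coeff (d + 1) * s i + B * g.coeff (d + 1) * t i)) =O[𝒰]
      fun _ => (1 : ℝ) := by
    refine cancel_O hh (d := d) ?_
    refine ((((exp_one hh h0 (f := k) (d := d) (by omega)).const_mul_left (D : ℝ)).sub
      ((exp_one hh hs (f := f) (d := d) (by omega)).const_mul_left (A : ℝ))).sub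
      ((exp_one hh ht (f := g) (d := d) (by omega)).const_mul_left (B : ℝ))).congr'
      (he'.mono fun i hi => ?_) (by simp)
    simp only [mul_sub, ← hi]
    push_cast
    ring
  have h2 := lead_zero hh ((((small_o hh hs).const_mul_left _).add
    ((small_o hh ht).const_mul_left _)).const_mul_left _) h1
  simp only [h2, zero_mul, zero_add] at h1
  rw [isBigO_const_mul_left_iff (by positivity)] at h1
  rw [Int.cast_eq_zero] at h2
  rcases hco f hf (by omega) with ⟨ef, cf⟩ | ⟨ef, cf⟩ <;>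
    rcases hco g hg (by omega) with ⟨eg, cg⟩ | ⟨eg, cg⟩ <;>
    simp only [cf, cg, Int.cast_zero, Int.cast_one, mul_zero, mul_one, zero_mul, add_zero,
      zero_add] at h1 h2
  rotate_left
  · have h4 := (isBigO_const_mul_left_iff (by positivity)).1 h1
    exact onCurve_of_bdd h h4 (other_bdd hh ht h4 hB.ne' hg hg0 (he.mono fun i hi => by
      rw [add_comm]; exact hi))
  · have h4 := (isBigO_const_mul_left_iff (by positivity)).1 h1
    exact onCurve_of_bdd h (other_bdd hh hs h4 hA.ne' hf hf0 he) h4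
  · rw [show d + 1 = k.natDegree by omega, hk.coeff_natDegree] at h2
    omega
  rcases hco k hk (by omega) with ⟨ek, ck⟩ | ⟨ek, ck⟩ <;> rw [ck] at h2
  swap
  · omega
  obtain ⟨m, rfl⟩ : ∃ m, d = m + 2 := ⟨d - 2, by omega⟩
  obtain ⟨κ, hκ⟩ := const_of_O (u := fun i => A * s i + B * t i) (h1.congr_left fun i => by
    push_cast; rfl)
  have hst : (fun x => (s x : ℝ)) =O[𝒰] (fun _ => (1 : ℝ)) →
      OnCurve 𝒰 (fun i => h i + s i) (fun i => h i + t i) h := fun h4 =>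
    onCurve_of_bdd h h4 ((isBigO_const_mul_left_iff (c := (B : ℝ)) (by positivity)).1
      ((h1.sub (h4.const_mul_left (A : ℝ))).congr_left fun i => by ring))
  rcases 𝒰.em fun i => s i = 0 with hz | hz
  · exact hst ((isBigO_zero _ _).congr' (hz.mono fun i hi => by simp [hi]) EventuallyEq.rfl)
  have hz1 : ∀ᶠ i in (𝒰 : Filter ι), 1 ≤ |(s i : ℝ)| := hz.mono fun i hi => by
    exact_mod_cast Int.one_le_abs hi
  obtain ⟨a₂, ha₂⟩ : ∃ a : ℤ, a = (m + 3).choose 2 := ⟨_, rfl⟩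
  obtain ⟨a₃, ha₃⟩ : ∃ a : ℤ, a = (m + 3).choose 3 := ⟨_, rfl⟩
  obtain ⟨lam, hlam⟩ : ∃ a : ℤ, a = B ^ 2 * ((m + 3) * κ + A * f.coeff (m + 2) +
    B * g.coeff (m + 2) - D * k.coeff (m + 2)) := ⟨_, rfl⟩
  obtain ⟨c₂, hc₂⟩ : ∃ a : ℤ, a = a₂ * (A * B ^ 2 + A ^ 2 * B) := ⟨_, rfl⟩
  obtain ⟨c₁, hc₁⟩ : ∃ a : ℤ, a = (m + 2) * B ^ 2 * A * (f.coeff (m + 2) - g.coeff (m + 2)) -
    2 * a₂ * κ * A * B := ⟨_, rfl⟩
  obtain ⟨c₃, hc₃⟩ : ∃ a : ℤ, a = a₃ * (A * B ^ 2 - A ^ 3) := ⟨_, rfl⟩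
  have hc₂0 : c₂ ≠ 0 := by
    have : 0 < a₂ := ha₂ ▸ Int.natCast_pos.2 (Nat.choose_pos (by omega))
    rw [hc₂]; positivity
  have h5 := quad_bdd hh hs (lam := lam) (c₁ := c₁) (c₂ := c₂) (c₃ := c₃) (by exact_mod_cast hc₂0)
    (by
      have h6 : _ =O[𝒰] fun i => (h i : ℝ) := cancel_O hh (d := m)
        (F := fun i => (lam : ℝ) * h i ^ 2 + (c₂ * s i ^ 2 + c₁ * s i) * h i + c₃ * s i ^ 3 +
          ((a₂ * B * κ ^ 2 + (m + 2) * B ^ 2 * g.coeff (m + 2) * κ) * h i +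
            a₃ * (κ ^ 3 * 1 - 3 * κ ^ 2 * A * s i + 3 * κ * A ^ 2 * s i ^ 2)))
        ((((((exp_three hh h0 ek.le ck).const_mul_left (D : ℝ)).sub
          ((exp_three hh hs ef.le cf).const_mul_left (A : ℝ))).sub
          ((exp_three hh ht eg.le cg).const_mul_left (B : ℝ))).const_mul_left
            ((B : ℝ) ^ 2)).congr' (by
          filter_upwards [he', hκ] with i hi h7
          have h8 : (κ : ℝ) = A * s i + B * t i := by exact_mod_cast h7.symm
          have h9 : (D : ℝ) = A + B := by exact_mod_cast (by omega : D = A + B)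
          simp only [mul_sub, ← hi]
          rw [hlam, hc₂, hc₁, hc₃, ha₂, ha₃]
          push_cast
          rw [h8, h9]
          ring) EventuallyEq.rfl)
      exact (h6.sub (((isBigO_refl _ _).const_mul_left _).add (((((one_o hh).isBigO.const_mul_left
        _).sub ((small_o hh hs).isBigO.const_mul_left _)).add
          (hs.const_mul_left _)).const_mul_left _))).congr_left fun i => add_sub_cancel_right _ _)
    hz1
  have hc₂' : (c₂ : ℝ) ≠ 0 := by exact_mod_cast hc₂0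
  by_cases hl : lam = 0
  · refine hst ?_
    have o1 : (fun _ => (1 : ℝ)) =O[𝒰] fun i => (s i : ℝ) :=
      IsBigO.of_bound 1 (hz1.mono fun x hx => by simpa using hx)
    have o2 := (((h5.trans o1).sub ((isBigO_refl (fun i => (s i : ℝ)) _).const_mul_left c₁)).mul
      (isBigO_refl (fun i => (s i : ℝ)⁻¹) _))
    refine (isBigO_const_mul_left_iff hc₂').1 (o2.congr' ?_ ?_) <;>
      filter_upwards [hz] with i hi <;> have : (s i : ℝ) ≠ 0 := (by exact_mod_cast hi)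
    · rw [hl]; field_simp; push_cast; ring
    · field_simp
  obtain ⟨e, he₀⟩ := const_of_O
    (u := fun i => c₂ * lam * h i + c₂ ^ 2 * s i ^ 2 + (c₁ * c₂ - c₃ * lam) * s i)
    ((h5.const_mul_left (c₂ : ℝ)).congr_left fun i => by push_cast; field_simp)
  have hq : ∀ u v : ℤ, 0 < (C (-(B * c₂ ^ 2)) * X ^ 2 + C u * X + C v).natDegree := fun u v => by
    rw [natDegree_quadratic (neg_ne_zero.2 (by positivity))]; norm_num
  refine ⟨c₂ * lam * B, _, _, _, s, by positivity,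
    hq (c₂ * lam * B - B * (c₁ * c₂ - c₃ * lam)) (B * e),
    hq (-(c₂ * lam * A) - B * (c₁ * c₂ - c₃ * lam)) (B * e + c₂ * lam * κ),
    hq (-(B * (c₁ * c₂ - c₃ * lam))) (B * e), ?_⟩
  filter_upwards [he₀, hκ] with i h6 h7
  simp only [eval_add, eval_mul, eval_C, eval_X, eval_pow, ← h6, ← h7]
  refine ⟨by ring, by ring, by ring⟩

end Pool.Agent.Lib.MP_4ffbf9_nt.JW
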