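import Mathlib
import Pool.Agent.Lib.MP_4ffbf9_nt.JW.Runge

/-!
Removing denominators and signs from a polynomial parametrisation.
-/

set_option autoImplicit false

namespace Pool.Agent.Lib.MP_4ffbf9_nt.JW

open Filter Asymptotics Polynomial

variable {ι : Type}

theorem desc_one {F : ℤ[X]} (hF : 0 < F.natDegree) {d a r u : ℤ} (hd : d ≠ 0) (ha : a ≠ 0)
    (hda : d ∣ a) (hu : d ∣ F.eval (a * u + r)) :
    ∃ G : ℤ[X], 0 < G.natDegree ∧ ∀ v, d * G.eval v = F.eval (a * v + r) := by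
  have h1 : d ∣ F.eval r := by
    have h := sub_dvd_eval_sub (a * u + r) r F
    rw [add_sub_cancel_right] at h
    simpa using dvd_sub hu ((hda.mul_right u).trans h)
  have h2 : C d ∣ F.comp (C a * X + C r) := by
    have h := sub_dvd_eval_sub (C a * X + C r) (C r) (F.map C)
    rw [add_sub_cancel_right, eval_map, eval_map, ← comp, ← comp, comp_C] at h
    simpa using dvd_add (((map_dvd C hda).mul_right X).trans h) (map_dvd C h1)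
  obtain ⟨G, hG⟩ := h2
  refine ⟨G, ?_, fun v => ?_⟩
  · rw [← natDegree_C_mul hd, ← hG, natDegree_comp, natDegree_linear ha, mul_one]
    exact hF
  · simpa [eval_comp] using (congrArg (eval v) hG).symm

theorem descend {𝒰 : Ultrafilter ι} {x y z : ι → ℤ} {c₀ c₁ c₂ : ℤ} (h₀ : c₀ ≠ 0) (h₁ : c₁ ≠ 0)
    (h₂ : c₂ ≠ 0) (h : OnCurve 𝒰 (fun i => c₀ * x i) (fun i => c₁ * y i) fun i => c₂ * z i) :
    ∃ (F G K : ℤ[X]) (τ : ι → ℕ), 0 < F.natDegree ∧ 0 < G.natDegree ∧ 0 < K.natDegree ∧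
      ∀ᶠ i in (𝒰 : Filter ι), F.eval (τ i : ℤ) = x i ∧ G.eval (τ i : ℤ) = y i ∧
        K.eval (τ i : ℤ) = z i := by
  obtain ⟨N, F, G, K, τ, hN, hF, hG, hK, he⟩ := h
  obtain ⟨σ, hσ, hτ⟩ : ∃ σ : ℤ, σ * σ = 1 ∧ ∀ᶠ i in (𝒰 : Filter ι), 0 ≤ σ * τ i := by
    rcases 𝒰.em fun i => 0 ≤ τ i with h | h
    · exact ⟨1, rfl, by simpa using h⟩
    · exact ⟨-1, rfl, h.mono fun i hi => by omega⟩
  obtain ⟨P, hP⟩ : ∃ P, P = |N * c₀ * c₁ * c₂| := ⟨_, rfl⟩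
  have hP0 : 0 < P := by rw [hP]; positivity
  obtain ⟨ρ, hρ⟩ := const_of_O (𝒰 := 𝒰) (u := fun i => σ * τ i % P)
    (IsBigO.of_bound P (Eventually.of_forall fun i => by
      rw [norm_one, mul_one, Real.norm_eq_abs]
      have h3 := Int.emod_nonneg (σ * τ i) hP0.ne'
      have h4 := Int.emod_lt_of_pos (σ * τ i) hP0
      exact_mod_cast abs_le.2 ⟨by omega, h4.le⟩))
  have ht : ∀ᶠ i in (𝒰 : Filter ι), τ i = σ * P * ((σ * τ i / P).toNat : ℤ) + σ * ρ := by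
    filter_upwards [hτ, hρ] with i h3 h4
    rw [Int.toNat_of_nonneg (Int.ediv_nonneg h3 hP0.le), ← h4, mul_assoc, ← mul_add,
      Int.mul_ediv_add_emod, ← mul_assoc, hσ, one_mul]
  have hσP : σ * P ≠ 0 := mul_ne_zero (left_ne_zero_of_mul_eq_one hσ) hP0.ne'
  obtain ⟨i₀, ⟨e₀, e₁, e₂⟩, e₃⟩ := (he.and ht).exists
  rw [e₃] at e₀ e₁ e₂
  have hd : ∀ c : ℤ, c ∣ N * c₀ * c₁ * c₂ → c ∣ σ * P := fun c hc =>
    Dvd.dvd.mul_left (hP ▸ (dvd_abs _ _).2 hc) σ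
  obtain ⟨F', hF', pF⟩ := desc_one hF (mul_ne_zero hN h₀) hσP (hd _ ⟨c₁ * c₂, by ring⟩)
    ⟨x i₀, by rw [← e₀]; ring⟩
  obtain ⟨G', hG', pG⟩ := desc_one hG (mul_ne_zero hN h₁) hσP (hd _ ⟨c₀ * c₂, by ring⟩)
    ⟨y i₀, by rw [← e₁]; ring⟩
  obtain ⟨K', hK', pK⟩ := desc_one hK (mul_ne_zero hN h₂) hσP (hd _ ⟨c₀ * c₁, by ring⟩)
    ⟨z i₀, by rw [← e₂]; ring⟩
  refine ⟨F', G', K', fun i => (σ * τ i / P).toNat, hF', hG', hK', ?_⟩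
  filter_upwards [he, ht] with i ⟨a₀, a₁, a₂⟩ a₃
  refine ⟨mul_left_cancel₀ (mul_ne_zero hN h₀) ?_, mul_left_cancel₀ (mul_ne_zero hN h₁) ?_,
    mul_left_cancel₀ (mul_ne_zero hN h₂) ?_⟩
  · rw [pF, ← a₃, ← a₀, mul_assoc]
  · rw [pG, ← a₃, ← a₁, mul_assoc]
  · rw [pK, ← a₃, ← a₂, mul_assoc]

end Pool.Agent.Lib.MP_4ffbf9_nt.JW
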