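import Mathlib
import Pool.Agent.Lib.MP_4ffbf9_nt.JW.Large
import Pool.Agent.Lib.MP_4ffbf9_nt.JW.Desc
import Pool.Agent.Lib.MP_4ffbf9_nt.Param

/-!
Bases near a rational direction are bounded.
-/

set_option autoImplicit false

namespace Pool.Agent.Lib.MP_4ffbf9_nt.JW

open Finset Polynomial Filter Asymptotics

/-- `x` is a product representation of `W` with at most `R` values in `[b, b + s]`. -/
structure Pr (R : ℕ) (M : ℝ) (n b s W : ℕ) (x : Fin n → ℕ) : Prop where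
  b0 : 0 < b
  n0 : 0 < n
  mem : ∀ i, b ≤ x i ∧ x i ≤ b + s
  prod : ∏ i, x i = W
  spread : (s : ℝ) ^ 2 / b ≤ M
  card : (univ.image x).card ≤ R

variable {R : ℕ} {M : ℝ} {n b s W : ℕ} {x : Fin n → ℕ}

theorem Pr.M0 (P : Pr R M n b s W x) : 0 ≤ M := le_trans (by positivity) P.spread

theorem Pr.pos (P : Pr R M n b s W x) : 0 < W :=
  P.prod ▸ prod_pos fun i _ => P.b0.trans_le (P.mem i).1

theorem Pr.sq_le (P : Pr R M n b s W x) : (s : ℝ) ^ 2 ≤ M * b :=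
  (div_le_iff₀ (by exact_mod_cast P.b0)).1 P.spread

theorem Pr.prime_le (P : Pr R M n b s W x) {L : ℝ} (hb : (b : ℝ) ≤ L) {p : ℕ} (hp : p.Prime)
    (h : p ∣ W) : p ≤ ⌈L + 1 + M * L⌉₊ := by
  obtain ⟨i, -, hi⟩ := (Prime.dvd_finsetProd_iff hp.prime _).1 (P.prod ▸ h)
  have h1 : (p : ℝ) ≤ b + s := by
    exact_mod_cast (Nat.le_of_dvd (P.b0.trans_le (P.mem i).1) hi).trans (P.mem i).2
  have h2 := P.sq_le.trans (mul_le_mul_of_nonneg_left hb P.M0)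
  have h3 : (p : ℝ) ≤ L + 1 + M * L := by nlinarith [sq_nonneg ((s : ℝ) - 1)]
  exact_mod_cast h3.trans (Nat.le_ceil _)

theorem Pr.group (P : Pr R M n b s W x) {c h : ℕ} {M₁ M₂ : ℝ} (hh : 0 < h) (hM : 4 * M₁ ≤ h)
    (hb : ((c * b : ℕ) - h : ℝ) ^ 2 ≤ M₁ * h) (hM₂ : 4 * c * M + 2 * M₁ ≤ M₂) :
    ∃ v m : Fin R → ℕ, ∑ i, m i = n ∧ ∏ i, v i ^ m i = W ∧
      ∀ i, ((c * v i : ℕ) - h : ℝ) ^ 2 ≤ M₂ * h := by
  have hx : ∀ j, ((c * x j : ℕ) - h : ℝ) ^ 2 ≤ M₂ * h := fun j => by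
    obtain ⟨d, hd⟩ := Nat.exists_eq_add_of_le (P.mem j).1
    have h1 : (d : ℝ) ≤ s := by exact_mod_cast (by have := (P.mem j).2; omega : d ≤ s)
    have h2 : (c * b : ℝ) ≤ 2 * h := by exact_mod_cast (win_pos hh hM hb).2.2
    have h3 : (c * d : ℝ) ^ 2 ≤ c * M * (2 * h) :=
      calc _ ≤ (c : ℝ) ^ 2 * s ^ 2 := by rw [mul_pow]; gcongr
        _ ≤ c ^ 2 * (M * b) := by gcongr; exact P.sq_le
        _ = c * M * (c * b) := by ring
        _ ≤ _ := by have := P.M0; gcongr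
    have h4 := mul_le_mul_of_nonneg_right hM₂ (Nat.cast_nonneg (α := ℝ) h)
    rw [hd]
    push_cast at hb ⊢
    nlinarith [sq_nonneg ((c : ℝ) * b - h - c * d)]
  obtain ⟨f⟩ : Nonempty (univ.image x ↪ Fin R) :=
    Function.Embedding.nonempty_of_card_le (by simpa using P.card)
  let v : Fin R → ℕ := Function.extend f Subtype.val fun _ => x ⟨0, P.n0⟩
  let φ : Fin n → Fin R := fun j => f ⟨x j, mem_image_of_mem x (mem_univ j)⟩
  have hv : ∀ j, v (φ j) = x j := fun j => f.injective.extend_apply _ _ _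
  refine ⟨v, fun i => (univ.filter fun j => φ j = i).card, ?_, ?_, fun i => ?_⟩
  · simpa using (card_eq_sum_card_fiberwise (s := univ) (t := univ) (f := φ)
      fun j _ => mem_univ _).symm
  · rw [← P.prod, ← prod_fiberwise univ φ x]
    refine prod_congr rfl fun i _ => ?_
    rw [prod_congr rfl (g := fun _ => v i) fun j hj => by rw [← hv j, (mem_filter.mp hj).2],
      prod_const]
  · by_cases h : ∃ y, f y = i
    · obtain ⟨⟨y, hy⟩, rfl⟩ := h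
      obtain ⟨j, -, rfl⟩ := mem_image.mp hy
      exact (hv j).symm ▸ hx j
    · rw [show v i = x ⟨0, P.n0⟩ from Function.extend_apply' _ _ _ h]
      exact hx _

theorem poly_of {ι : Type} {𝒰 : Ultrafilter ι} (c n0 : ℕ) {n b s W : ι → ℕ}
    {x : ∀ j, Fin (n j) → ℕ} (P : ∀ j, Pr R M (n j) (b j) (s j) (W j) (x j))
    (hn : ∀ᶠ j in (𝒰 : Filter ι), n j ≤ n0 ∧ s j ≤ n0) : ∃ f : ℤ[X], f.Monic ∧
      ∀ᶠ j in (𝒰 : Filter ι), n j = f.natDegree ∧
        f.eval ((c : ℤ) * b j) = (c : ℤ) ^ f.natDegree * W j := by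
  have hle : ∀ j, n j ≤ n0 ∧ s j ≤ n0 →
      univ.val.map (fun i => x j i - b j) ≤ n0 • (range (n0 + 1)).val := fun j hj => by
    refine Multiset.le_iff_count.2 fun a => ?_
    by_cases ha : a ≤ n0
    · rw [Multiset.count_nsmul, Multiset.count_eq_one_of_mem (range _).nodup
        (mem_range.2 (by omega)), mul_one]
      exact (Multiset.count_le_card _ _).trans (by simpa using hj.1)
    · rw [Multiset.count_eq_zero_of_notMem]
      · exact Nat.zero_le _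
      · intro h
        obtain ⟨i, -, hi⟩ := Multiset.mem_map.1 h
        have := (P j).mem i
        omega
  obtain ⟨μ, -, hμ⟩ := (Ultrafilter.eventually_exists_mem_iff (f := 𝒰)
    (P := fun μ j => univ.val.map (fun i => x j i - b j) = μ)
    (Set.finite_Iic (n0 • (range (n0 + 1)).val))).1 (hn.mono fun j hj => ⟨_, hle j hj, rfl⟩)
  refine ⟨(μ.map fun a : ℕ => X + C ((c : ℤ) * a)).prod,
    monic_multiset_prod_of_monic _ _ fun _ _ => monic_X_add_C _, hμ.mono fun j hj => ?_⟩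
  rw [← hj, Multiset.map_map, ← prod_eq_multiset_prod]
  have hd : (∏ i, (X + C ((c : ℤ) * (x j i - b j : ℕ)))).natDegree = n j := by
    rw [natDegree_prod_of_monic _ _ fun _ _ => monic_X_add_C _]
    simp only [natDegree_X_add_C, sum_const, card_univ, Fintype.card_fin, smul_eq_mul, mul_one]
  simp only [Function.comp_apply]
  rw [hd, eval_prod, ← (P j).prod, Nat.cast_prod]
  refine ⟨rfl, (prod_congr rfl (g := fun i => (c : ℤ) * x j i) fun i _ => ?_).trans ?_⟩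
  · rw [Nat.cast_sub ((P j).mem i).1]
    simp only [eval_add, eval_X, eval_C]
    ring
  · rw [prod_mul_distrib, prod_const, card_univ, Fintype.card_fin]

theorem coeff_bound (f : ℤ[X]) : ∃ H : ℕ, ∀ i, |f.coeff i| ≤ H := by
  obtain ⟨H, hH⟩ := (f.finite_range_coeff.image Int.natAbs).bddAbove
  exact ⟨H, fun i => by
    rw [← Int.natCast_natAbs]
    exact_mod_cast hH ⟨_, ⟨i, rfl⟩, rfl⟩⟩

theorem gcd_le {Q : ℝ} {X Y : ℕ} (hQ : PR.GcdOk Q X Y) :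
    Nat.gcd X Y ≤ ⌈Q⌉₊ * ∏ p ∈ (Nat.gcd X Y).primeFactors, p := by
  have h0 : (0 : ℝ) < ∏ p ∈ (Nat.gcd X Y).primeFactors, (p : ℝ) :=
    prod_pos fun p hp => by exact_mod_cast (Nat.prime_of_mem_primeFactors hp).pos
  have h1 := ((div_le_iff₀ h0).1 hQ).trans (mul_le_mul_of_nonneg_right (Nat.le_ceil Q) h0.le)
  rw [← Nat.cast_prod] at h1
  exact_mod_cast h1

theorem sigma_facts {nX nY nZ sX sY sZ : ℕ} (hX : 0 < nX) (hY : 0 < nY) (hZ : 0 < nZ)
    (hσ : (1 + (sX : ℝ)) / nX + (1 + (sY : ℝ)) / nY + (1 + (sZ : ℝ)) / nZ ≤ 1) :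
    sX ≤ nX ∧ sY ≤ nY ∧ sZ ≤ nZ ∧ (nX = nZ → nY = nZ → 3 ≤ nZ) := by
  have u : ∀ {n s : ℕ}, 0 < n → (1 + (s : ℝ)) / n ≤ 1 → s ≤ n := fun {n s} hn h => by
    rw [div_le_one (by exact_mod_cast hn)] at h
    exact_mod_cast (by linarith : (s : ℝ) ≤ n)
  have p1 : 0 ≤ (1 + (sX : ℝ)) / nX := by positivity
  have p2 : 0 ≤ (1 + (sY : ℝ)) / nY := by positivity
  have p3 : 0 ≤ (1 + (sZ : ℝ)) / nZ := by positivity
  refine ⟨u hX (by linarith), u hY (by linarith), u hZ (by linarith), ?_⟩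
  rintro rfl rfl
  rw [← add_div, ← add_div, div_le_one (by exact_mod_cast hX)] at hσ
  have : (3 : ℝ) ≤ nY := by
    linarith [Nat.cast_nonneg (α := ℝ) sX, Nat.cast_nonneg (α := ℝ) sY, Nat.cast_nonneg (α := ℝ) sZ]
  exact_mod_cast this

theorem base_bound (A B D R α β γ : ℕ) (Q M : ℝ) (hA : 0 < A) (hB : 0 < B) (hD : 0 < D)
    (hα : 0 < α) (hβ : 0 < β) (hγ : 0 < γ) : ∃ L : ℕ,
    ∀ (X Y Z nX nY nZ bX bY bZ sX sY sZ : ℕ) (x : Fin nX → ℕ) (y : Fin nY → ℕ) (z : Fin nZ → ℕ),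
      Pr R M nX bX sX X x → Pr R M nY bY sY Y y → Pr R M nZ bZ sZ Z z → A * X + B * Y = D * Z →
      (1 + (sX : ℝ)) / nX + (1 + (sY : ℝ)) / nY + (1 + (sZ : ℝ)) / nZ ≤ 1 → PR.GcdOk Q X Y →
      ((γ : ℝ) * bX - α * bZ) ^ 2 ≤ M * bZ → ((γ : ℝ) * bY - β * bZ) ^ 2 ≤ M * bZ → bZ ≤ L := by
  by_contra hcon
  push Not at hcon
  choose X Y Z nX nY nZ bX bY bZ sX sY sZ x y z PX PY PZ he hσ hQ d1 d2 hb using hcon
  have M0 := (PX 0).M0
  obtain ⟨M₁, hM₁⟩ : ∃ M₁ : ℝ, M₁ = (α ^ 2 + β ^ 2) * M := ⟨_, rfl⟩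
  have hbh : ∀ j, bZ j ≤ α * β * bZ j := fun j => Nat.le_mul_of_pos_left _ (by positivity)
  have sc : ∀ {e u : ℝ} (j), e ^ 2 ≤ α ^ 2 + β ^ 2 → u ^ 2 ≤ M * bZ j →
      (e * u) ^ 2 ≤ M₁ * (α * β * bZ j : ℕ) := fun j h1 h2 => by
    rw [mul_pow, hM₁, mul_assoc]
    refine mul_le_mul h1 (h2.trans ?_) (by positivity) (by positivity)
    gcongr
    exact hbh j
  have w0 : ∀ j, ((β * γ * bX j : ℕ) - (α * β * bZ j : ℕ) : ℝ) ^ 2 ≤ M₁ * (α * β * bZ j : ℕ) :=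
    fun j => by
      convert sc (e := β) j (le_add_of_nonneg_left (by positivity)) (d1 j) using 2
      push_cast
      ring
  have w1 : ∀ j, ((α * γ * bY j : ℕ) - (α * β * bZ j : ℕ) : ℝ) ^ 2 ≤ M₁ * (α * β * bZ j : ℕ) :=
    fun j => by
      convert sc (e := α) j (le_add_of_nonneg_right (by positivity)) (d2 j) using 2
      push_cast
      ring
  have w2 : ∀ j, ((α * β * bZ j : ℕ) - (α * β * bZ j : ℕ) : ℝ) ^ 2 ≤ M₁ * (α * β * bZ j : ℕ) :=
    fun j => by rw [sub_self, hM₁, zero_pow two_ne_zero]; positivity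
  obtain ⟨n0, h0, H⟩ := large A B D R ![β * γ, α * γ, α * β] Q
    (4 * (β * γ + α * γ + α * β : ℕ) * M + 2 * M₁) hA hB hD
    fun k => by fin_cases k <;> simp <;> omega
  let 𝒰 : Ultrafilter ℕ := hyperfilter ℕ
  have big : ∀ T, ∀ᶠ j in (𝒰 : Filter ℕ), T < bZ j := fun T =>
    ((eventually_ge_atTop T).filter_mono Nat.hyperfilter_le_atTop).mono fun j hj =>
      hj.trans_lt (hb j)
  have sf := fun j => sigma_facts (PX j).n0 (PY j).n0 (PZ j).n0 (hσ j)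
  have deg : ∀ᶠ j in (𝒰 : Filter ℕ), nX j + nY j + nZ j < n0 :=
    (big (h0 + ⌈4 * M₁⌉₊)).mono fun j hj => by
      have := hbh j
      have hM : 4 * M₁ ≤ (α * β * bZ j : ℕ) := Nat.ceil_le.1 (by omega)
      have u : ∀ {e : ℕ}, e ≤ β * γ + α * γ + α * β →
          4 * e * M + 2 * M₁ ≤ 4 * (β * γ + α * γ + α * β : ℕ) * M + 2 * M₁ := fun h => by gcongr
      obtain ⟨v0, m0, s0, p0, u0⟩ := (PX j).group (by omega) hM (w0 j) (u (by omega))
      obtain ⟨v1, m1, s1, p1, u1⟩ := (PY j).group (by omega) hM (w1 j) (u (by omega))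
      obtain ⟨v2, m2, s2, p2, u2⟩ := (PZ j).group (by omega) hM (w2 j) (u (by omega))
      by_contra hn
      refine H (α * β * bZ j) ![v0, v1, v2] ![m0, m1, m2] ![nX j, nY j, nZ j] (fun k => ?_)
        (not_lt.1 hn) (by omega) (fun k => ?_) ?_ ?_
      · fin_cases k
        exacts [s0, s1, s2]
      · fin_cases k
        exacts [u0, u1, u2]
      · have := hQ j
        rwa [← p0, ← p1] at this
      · have := he j
        rwa [← p0, ← p1, ← p2] at this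
  obtain ⟨f, hf, ef⟩ := poly_of (β * γ) n0 PX (deg.mono fun j hj => by have := sf j; omega)
  obtain ⟨g, hg, eg⟩ := poly_of (α * γ) n0 PY (deg.mono fun j hj => by have := sf j; omega)
  obtain ⟨k, hk, ek⟩ := poly_of (α * β) n0 PZ (deg.mono fun j hj => by have := sf j; omega)
  obtain ⟨j0, e0, e1, e2⟩ := (ef.and (eg.and ek)).exists
  have hO : ∀ {u : ℕ → ℕ}, (∀ j, ((u j : ℝ) - (α * β * bZ j : ℕ)) ^ 2 ≤ M₁ * (α * β * bZ j : ℕ)) →
      (fun j => (((u j : ℤ) - (α * β * bZ j : ℕ) : ℤ) : ℝ) ^ 2) =O[𝒰]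
        fun j => (((α * β * bZ j : ℕ) : ℤ) : ℝ) := fun h =>
    IsBigO.of_bound M₁ (Eventually.of_forall fun j => by
      rw [Real.norm_of_nonneg (sq_nonneg _), Real.norm_of_nonneg (by positivity)]
      simpa only [Int.cast_sub, Int.cast_natCast] using h j)
  have hR := runge (𝒰 := 𝒰) (h := fun j => (α * β * bZ j : ℕ))
    (A := A * (α * γ : ℕ) ^ g.natDegree * (α * β : ℕ) ^ k.natDegree)
    (B := B * (β * γ : ℕ) ^ f.natDegree * (α * β : ℕ) ^ k.natDegree)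
    (D := D * (β * γ : ℕ) ^ f.natDegree * (α * γ : ℕ) ^ g.natDegree)
    (tendsto_atTop.2 fun T => (big ⌈T⌉₊).mono fun j hj => by
      rw [Int.cast_natCast]
      exact Nat.ceil_le.1 (hj.le.trans (hbh j)))
    (hO w0) (hO w1) (by positivity) (by positivity) (by positivity) hf hg hk
    (e0.1 ▸ (PX j0).n0) (e1.1 ▸ (PY j0).n0) (e0.1 ▸ e1.1 ▸ e2.1 ▸ (sf j0).2.2.2)
    ((ef.and (eg.and ek)).mono fun j ⟨e0, e1, e2⟩ => by
      have h1 : (A : ℤ) * X j + B * Y j = D * Z j := by exact_mod_cast he j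
      rw [add_sub_cancel, add_sub_cancel, Nat.cast_mul (β * γ), Nat.cast_mul (α * γ),
        Nat.cast_mul (α * β), e0.2, e1.2, e2.2]
      linear_combination ((β * γ : ℕ) : ℤ) ^ f.natDegree * ((α * γ : ℕ) : ℤ) ^ g.natDegree *
        ((α * β : ℕ) : ℤ) ^ k.natDegree * h1)
  simp only [add_sub_cancel, Nat.cast_mul (β * γ), Nat.cast_mul (α * γ),
    Nat.cast_mul (α * β)] at hR
  obtain ⟨F, G, K, τ, hF, hG, hK, hτ⟩ :=
    descend (by positivity) (by positivity) (by positivity) hR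
  obtain ⟨H1, hH1⟩ := coeff_bound F
  obtain ⟨H2, hH2⟩ := coeff_bound G
  obtain ⟨H3, hH3⟩ := coeff_bound K
  obtain ⟨H0, hH0⟩ : ∃ H0, H0 = H1 + H2 + H3 + n0 + 2 := ⟨_, rfl⟩
  obtain ⟨T1, hT1⟩ : ∃ T1, T1 = H0 ^ (30000 * ((1 + n0) * F.natDegree + (1 + n0) * G.natDegree +
    (1 + n0) * K.natDegree)) := ⟨_, rfl⟩
  obtain ⟨T2, hT2⟩ : ∃ T2, T2 = (6 * (A + B + D) ^ 3 * ((A + B) * (⌈Q⌉₊ + 1) * D)) ^ 2 := ⟨_, rfl⟩
  obtain ⟨L, hL⟩ := ((Set.finite_le_nat (T1 + T2)).image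
    fun t : ℕ => (K.eval (t : ℤ)).natAbs).bddAbove
  obtain ⟨j, ⟨t1, t2, t3⟩, hj, hd⟩ := (hτ.and ((big L).and deg)).exists
  have hT : T1 + T2 < τ j := lt_of_not_ge fun h => by
    have := hL ⟨τ j, h, rfl⟩
    simp only [t3, Int.natAbs_natCast] at this
    omega
  obtain ⟨s1, s2, s3, -⟩ := sf j
  refine large_false (H := H0) hA hB hD (he j) (gcd_le (hQ j)) _ _ _ (PX j).n0 (PY j).n0 (PZ j).n0
    (PX j).b0 (PY j).b0 (PZ j).b0 (PX j).mem (PY j).mem (PZ j).mem (PX j).prod (PY j).prod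
    (PZ j).prod (hσ j) F G K hF hG hK t1 t2 t3 (by omega)
    (fun i => ⟨(hH1 i).trans (by omega), (hH2 i).trans (by omega), (hH3 i).trans (by omega)⟩)
    (by omega) (by omega) (by omega) ?_ ?_
  · have h1 : H0 ^ (30000 * ((1 + sX j) * F.natDegree + (1 + sY j) * G.natDegree +
        (1 + sZ j) * K.natDegree)) ≤ τ j ^ 2 := by
      refine le_trans ?_ ((by omega : T1 ≤ τ j).trans (Nat.le_self_pow two_ne_zero _))
      rw [hT1]
      refine Nat.pow_le_pow_right (by omega) ?_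
      gcongr <;> omega
    exact_mod_cast h1
  · have h1 : T2 < τ j := by omega
    rw [hT2] at h1
    exact_mod_cast h1

end Pool.Agent.Lib.MP_4ffbf9_nt.JW
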